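import Pool.Agent.N242.PC.Stm
import Pool.Agent.N747.NT.Ext

/-!
# Project PC, EXT: points with prescribed values of finitely many functionals at which a set is not
flat (adapted from N163/KB/Exy.lean of helper163, after helper747)
-/

set_option autoImplicit false

open Metric Set Filter Topology

namespace Pool.Agent.N216.PC

open Pool.Agent.N242.NT Pool.Agent.N242.PC

universe u

theorem t_EXT : Pool.Agent.N242.PC.S_EXT.{u} := by
  classical
  intro X _ _ hK hX T hTc hTb hTx y hy F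
  obtain ⟨K, hKd⟩ : ∃ K : Set X, K = T ∩ {z | ∀ f ∈ F, f z = f y} := ⟨_, rfl⟩
  have hmem : ∀ z, z ∈ K ↔ z ∈ T ∧ ∀ f ∈ F, f z = f y := by
    intro z
    rw [hKd, mem_inter_iff]
    rfl
  have h1 : IsClosed K := by
    rw [hKd]
    refine hTc.inter ?_
    have : {z : X | ∀ f ∈ F, f z = f y} = ⋂ f ∈ F, {z | f z = f y} := by
      ext z; simp
    rw [this]
    exact isClosed_biInter fun f _ => isClosed_eq f.continuous continuous_const
  have h2 : Bornology.IsBounded K := by
    rw [hKd]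
    exact hTb.subset inter_subset_left
  have h3 : Convex ℝ K := by
    rw [hKd]
    refine hTx.inter ?_
    intro x hx x' hx' a b _ _ hab f hf
    rw [map_add, map_smul, map_smul, hx f hf, hx' f hf, ← add_smul, hab, one_smul]
  have h4 : K.Nonempty := ⟨y, (hmem y).mpr ⟨hy, fun _ _ => rfl⟩⟩
  obtain ⟨z, hz⟩ := hK K h1 h2 h3 h4
  obtain ⟨hzK, hz2⟩ := mem_extremePoints.mp hz
  obtain ⟨hz3, hz4⟩ := (hmem z).mp hzK
  refine ⟨z, hz3, hz4, ?_⟩
  rintro ⟨G, ε, hε, hcon⟩
  obtain ⟨w, hw0, hw⟩ := Pool.Agent.N747.NT.exists_common_zero hX (F ∪ G)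
  have hwn : 0 < ‖w‖ := norm_pos_iff.mpr hw0
  obtain ⟨v, hv⟩ : ∃ v, v = (ε / ‖w‖) • w := ⟨_, rfl⟩
  have hvn : ‖v‖ = ε := by
    rw [hv, norm_smul, Real.norm_eq_abs, abs_of_pos (by positivity)]
    field_simp
  have hvF : ∀ f ∈ F ∪ G, f v = 0 := by
    intro f hf
    rw [hv, map_smul, hw f hf, smul_zero]
  have hp : z + v ∈ K := (hmem _).mpr ⟨hcon v (fun f hf => hvF f (Finset.mem_union_right _ hf))
    hvn.le, fun f hf => by rw [map_add, hvF f (Finset.mem_union_left _ hf), add_zero, hz4 f hf]⟩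
  have hm : z - v ∈ K := by
    refine (hmem _).mpr ⟨?_, fun f hf => by
      rw [map_sub, hvF f (Finset.mem_union_left _ hf), sub_zero, hz4 f hf]⟩
    have h5 := hcon (-v) (fun f hf => by
      rw [map_neg, hvF f (Finset.mem_union_right _ hf), neg_zero]) (by rw [norm_neg]; exact hvn.le)
    rwa [← sub_eq_add_neg] at h5
  have hseg : z ∈ openSegment ℝ (z + v) (z - v) :=
    ⟨1 / 2, 1 / 2, by norm_num, by norm_num, by norm_num, by
      rw [smul_add, smul_sub]
      have : (1 / 2 : ℝ) • z + (1 / 2 : ℝ) • z = z := by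
        rw [← add_smul]; norm_num
      rw [add_add_sub_cancel, this]⟩
  have h6 := (hz2 _ hp _ hm hseg).1
  have h7 : v = 0 := by
    have := add_eq_left.mp h6
    exact this
  rw [h7, norm_zero] at hvn
  exact hε.ne hvn

end Pool.Agent.N216.PC
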